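import Pool.Agent.M05Full.Uncond

set_option autoImplicit false

namespace Pool.Agent.Results.MP_b7926e_nt.FivePoints

open Pool.Agent.CITLines

/-- The surface `{(x, 1 - x, y, 1 - y, x - y)}` in the torus of dimension five: the moduli space of
five points on the projective line. -/
def V : Set (Fin 5 → ℂ) :=
  {P | (∀ i, P i ≠ 0) ∧ P 1 = 1 - P 0 ∧ P 3 = 1 - P 2 ∧ P 4 = P 0 - P 2}

/-- The assertion of the frozen statement `S18257` for the surface `V`, and the finiteness of the set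
of its maximal atypical subvarieties. -/
theorem result :
    (∃ (k : ℕ) (L : Fin k → Submodule ℤ (Fin 5 → ℤ)) (ζ : Fin k → Fin 5 → ℂ),
        (∀ j, L j ≠ ⊥ ∧
          (∀ a : Fin 5 → ℤ, ∀ m : ℤ, m ≠ 0 → m • a ∈ L j → a ∈ L j) ∧
          ∃ m : ℕ, 0 < m ∧ ∀ i, ζ j i ^ m = 1) ∧
        ∀ (M : Submodule ℤ (Fin 5 → ℤ)) (η : Fin 5 → ℂ) (T : Set (Fin 5 → ℂ)),
          (∀ a : Fin 5 → ℤ, ∀ m : ℤ, m ≠ 0 → m • a ∈ M → a ∈ M) →
          (∃ m : ℕ, 0 < m ∧ ∀ i, η i ^ m = 1) →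
          T = {y : Fin 5 → ℂ | (∀ i, y i ≠ 0) ∧
                ∀ a ∈ M, ∏ i, y i ^ a i = ∏ i, η i ^ a i} →
          ∀ X : Set (Fin 5 → ℂ), X ⊆ V → X ⊆ T →
            (⨅ x ∈ X, RingHom.ker (MvPolynomial.eval x : MvPolynomial (Fin 5) ℂ →+* ℂ)).IsPrime →
            ringKrullDim (MvPolynomial (Fin 5) ℂ ⧸
                (⨅ x ∈ V, RingHom.ker (MvPolynomial.eval x : MvPolynomial (Fin 5) ℂ →+* ℂ)))
              + ringKrullDim (MvPolynomial (Fin 5) ℂ ⧸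
                (⨅ x ∈ T, RingHom.ker (MvPolynomial.eval x : MvPolynomial (Fin 5) ℂ →+* ℂ)))
              < ringKrullDim (MvPolynomial (Fin 5) ℂ ⧸
                (⨅ x ∈ X, RingHom.ker (MvPolynomial.eval x : MvPolynomial (Fin 5) ℂ →+* ℂ)))
                + ((5 : ℕ) : WithBot ℕ∞) →
            ∃ j, X ⊆ {y : Fin 5 → ℂ | (∀ i, y i ≠ 0) ∧
                ∀ a ∈ L j, ∏ i, y i ^ a i = ∏ i, ζ j i ^ a i}) ∧
    {X | IsMaxAtypical V X}.Finite := by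
  refine ⟨?_, Pool.Agent.M05Full.finite_max Pool.Agent.M05Full.leh2⟩
  obtain ⟨k, L, ζ, h1, h2⟩ := Pool.Agent.M05Full.main Pool.Agent.M05Full.leh2
  exact ⟨k, L, ζ, h1, fun M η T hM hη hT X hXV hXT hX hdim =>
    h2 T ⟨M, η, hM, hη, hT⟩ X hXV hXT hX hdim⟩

end Pool.Agent.Results.MP_b7926e_nt.FivePoints
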