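import Pool.Agent.LThree.Cover
import Pool.Agent.RelC.Counts
import Pool.Agent.LThreeC.Adapter

set_option autoImplicit false

namespace Pool.Agent.Results.MP_b7926e_nt.LineCube

/-- Zilber's conjecture on intersections with tori (Q1, the conclusion of the frozen statement
`S18257`) for the threefold `V = L^3` in the six-dimensional torus, where `L` is the line
`x + y = 1`: there are finitely many proper torsion cosets such that every irreducible `X` in
`V ∩ T`, with `T` a torsion coset and `dim X > dim V + dim T - 6`, lies in one of them. -/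
theorem result :
    ∀ V : Set (Fin 6 → ℂ),
      V = {x : Fin 6 → ℂ | (∀ i, x i ≠ 0) ∧ x 0 + x 3 = 1 ∧ x 1 + x 4 = 1 ∧ x 2 + x 5 = 1} →
      ∃ (k : ℕ) (L : Fin k → Submodule ℤ (Fin 6 → ℤ)) (ζ : Fin k → Fin 6 → ℂ),
        (∀ j, L j ≠ ⊥ ∧
          (∀ a : Fin 6 → ℤ, ∀ m : ℤ, m ≠ 0 → m • a ∈ L j → a ∈ L j) ∧
          ∃ m : ℕ, 0 < m ∧ ∀ i, ζ j i ^ m = 1) ∧
        ∀ (M : Submodule ℤ (Fin 6 → ℤ)) (η : Fin 6 → ℂ) (T : Set (Fin 6 → ℂ)),
          (∀ a : Fin 6 → ℤ, ∀ m : ℤ, m ≠ 0 → m • a ∈ M → a ∈ M) →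
          (∃ m : ℕ, 0 < m ∧ ∀ i, η i ^ m = 1) →
          T = {y : Fin 6 → ℂ | (∀ i, y i ≠ 0) ∧
                ∀ a ∈ M, ∏ i, y i ^ a i = ∏ i, η i ^ a i} →
          ∀ X : Set (Fin 6 → ℂ), X ⊆ V → X ⊆ T →
            (⨅ x ∈ X, RingHom.ker (MvPolynomial.eval x : MvPolynomial (Fin 6) ℂ →+* ℂ)).IsPrime →
            ringKrullDim (MvPolynomial (Fin 6) ℂ ⧸
                (⨅ x ∈ V, RingHom.ker (MvPolynomial.eval x : MvPolynomial (Fin 6) ℂ →+* ℂ)))
              + ringKrullDim (MvPolynomial (Fin 6) ℂ ⧸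
                (⨅ x ∈ T, RingHom.ker (MvPolynomial.eval x : MvPolynomial (Fin 6) ℂ →+* ℂ)))
              < ringKrullDim (MvPolynomial (Fin 6) ℂ ⧸
                (⨅ x ∈ X, RingHom.ker (MvPolynomial.eval x : MvPolynomial (Fin 6) ℂ →+* ℂ)))
                + ((6 : ℕ) : WithBot ℕ∞) →
            ∃ j, X ⊆ {y : Fin 6 → ℂ | (∀ i, y i ≠ 0) ∧
                ∀ a ∈ L j, ∏ i, y i ^ a i = ∏ i, ζ j i ^ a i} := by
  intro V hV
  have h : LThree.ZilberFor (CITLines.linePower 3) :=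
    LThree.zilber_line_three RelC.shortOne RelC.shortThree (LThreeC.transThree RelC.pairsOne')
      LThreeC.transTwo
  have hVL : V = CITLines.linePower 3 := by
    subst hV
    ext x
    constructor
    · rintro ⟨h0, h1, h2, h3⟩
      refine ⟨h0, fun j => ?_⟩
      fin_cases j
      · exact h1
      · exact h2
      · exact h3
    · rintro ⟨h0, h1⟩
      exact ⟨h0, h1 0, h1 1, h1 2⟩
  rw [hVL]
  exact h

end Pool.Agent.Results.MP_b7926e_nt.LineCube
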