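import Pool.Agent.CITLines.Final

set_option autoImplicit false

namespace Pool.Agent.Results.MP_b7926e_nt.LinePowers

open Pool.Agent.CITLines

/-- Zilber's conjecture on intersections with tori, for all complex varieties (the frozen statement
`S18257`), holds if and only if for every `r` the `r`-th power of the line `x + y = 1` in the
`2r`-torus has only finitely many maximal atypical subvarieties. -/
theorem result :
    (∀ (n : ℕ) (S : Set (MvPolynomial (Fin n) ℂ)) (V : Set (Fin n → ℂ)),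
      V = {x : Fin n → ℂ | (∀ i, x i ≠ 0) ∧ ∀ p ∈ S, MvPolynomial.eval x p = 0} →
      (⨅ x ∈ V, RingHom.ker (MvPolynomial.eval x : MvPolynomial (Fin n) ℂ →+* ℂ)).IsPrime →
      ∃ (k : ℕ) (L : Fin k → Submodule ℤ (Fin n → ℤ)) (ζ : Fin k → Fin n → ℂ),
        (∀ j, L j ≠ ⊥ ∧
          (∀ a : Fin n → ℤ, ∀ m : ℤ, m ≠ 0 → m • a ∈ L j → a ∈ L j) ∧
          ∃ m : ℕ, 0 < m ∧ ∀ i, ζ j i ^ m = 1) ∧
        ∀ (M : Submodule ℤ (Fin n → ℤ)) (η : Fin n → ℂ) (T : Set (Fin n → ℂ)),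
          (∀ a : Fin n → ℤ, ∀ m : ℤ, m ≠ 0 → m • a ∈ M → a ∈ M) →
          (∃ m : ℕ, 0 < m ∧ ∀ i, η i ^ m = 1) →
          T = {y : Fin n → ℂ | (∀ i, y i ≠ 0) ∧
                ∀ a ∈ M, ∏ i, y i ^ a i = ∏ i, η i ^ a i} →
          ∀ X : Set (Fin n → ℂ), X ⊆ V → X ⊆ T →
            (⨅ x ∈ X, RingHom.ker (MvPolynomial.eval x : MvPolynomial (Fin n) ℂ →+* ℂ)).IsPrime →
            ringKrullDim (MvPolynomial (Fin n) ℂ ⧸
                (⨅ x ∈ V, RingHom.ker (MvPolynomial.eval x : MvPolynomial (Fin n) ℂ →+* ℂ)))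
              + ringKrullDim (MvPolynomial (Fin n) ℂ ⧸
                (⨅ x ∈ T, RingHom.ker (MvPolynomial.eval x : MvPolynomial (Fin n) ℂ →+* ℂ)))
              < ringKrullDim (MvPolynomial (Fin n) ℂ ⧸
                (⨅ x ∈ X, RingHom.ker (MvPolynomial.eval x : MvPolynomial (Fin n) ℂ →+* ℂ)))
                + (n : WithBot ℕ∞) →
            ∃ j, X ⊆ {y : Fin n → ℂ | (∀ i, y i ≠ 0) ∧
                ∀ a ∈ L j, ∏ i, y i ^ a i = ∏ i, ζ j i ^ a i}) ↔
      ∀ r : ℕ, {X | IsMaxAtypical (linePower r) X}.Finite :=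
  main.out 0 2

end Pool.Agent.Results.MP_b7926e_nt.LinePowers
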