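import Pool.Agent.LAll.Transfer

set_option autoImplicit false

namespace Pool.Agent.Results.MP_b7926e_nt.PowersRank

/-- For every `ρ ≥ 1` there is a nonzero integer polynomial `f` in `r = (ρ - 1)^2 + 2` variables
which vanishes at all points `x` (over any field of characteristic zero) all of whose coordinates
`x i` and `1 - x i` lie in one multiplicative group `Γ` of rank at most `ρ`; `f` does not depend on
`Γ`. So for every `r` of this form the points of the power `L^r` of the line `x + y = 1` which lie in
torsion cosets of dimension at most `ρ` are contained in one proper subvariety of `L^r`. -/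
theorem result (ρ : ℕ) (hρ : 1 ≤ ρ) :
    ∃ f : MvPolynomial (Fin ((ρ - 1) ^ 2 + 2)) ℤ, f ≠ 0 ∧
      ∀ (F : Type) [Field F] [CharZero F] (Γ : Subgroup Fˣ), Module.rank ℤ (Additive Γ) ≤ ρ →
        ∀ x : Fin ((ρ - 1) ^ 2 + 2) → F,
          (∀ i, (∃ u ∈ Γ, (u : F) = x i) ∧ ∃ u ∈ Γ, (u : F) = 1 - x i) →
          MvPolynomial.aeval x f = 0 :=
  Pool.Agent.LAll.theorem_U ρ hρ

end Pool.Agent.Results.MP_b7926e_nt.PowersRank
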