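import Pool.Agent.CITTrans.Main

set_option autoImplicit false

namespace Pool.Agent.Results.MP_b7926e_nt.SpreadTranslates

open Pool.Agent.CITTrans

/-- For every irreducible subvariety `V` of the complex `n`-torus there are `N` and `P₀` such that
every translate of `V` by a rational point whose `p`-adic valuation vectors, for primes `p > P₀`,
do not lie in a union of `N` rational hyperplanes has no atypical subvariety; and all integer
vectors in some residue class have this property. -/
theorem result :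
    ∀ (n : ℕ) (S : Set (MvPolynomial (Fin n) ℂ)) (V : Set (Fin n → ℂ)),
      V = {x : Fin n → ℂ | (∀ i, x i ≠ 0) ∧ ∀ p ∈ S, MvPolynomial.eval x p = 0} →
      (⨅ x ∈ V, RingHom.ker (MvPolynomial.eval x : MvPolynomial (Fin n) ℂ →+* ℂ)).IsPrime →
      ∃ N P₀ : ℕ,
        (∀ g : Fin n → ℚ, (∀ i, g i ≠ 0) → Spread N P₀ g →
          NoAtypical ((fun (x : Fin n → ℂ) (i : Fin n) => (g i : ℂ) * x i) '' V)) ∧
        ∃ (Q : ℕ) (a : Fin n → ℤ), 0 < Q ∧ ∀ g : Fin n → ℤ, (∀ i, (Q : ℤ) ∣ g i - a i) →
          (∀ i, g i ≠ 0) ∧ Spread N P₀ (fun i => (g i : ℚ)) := by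
  intro n S V hVS hV
  obtain ⟨N, P₀, h⟩ := main V (fun x hx => by rw [hVS] at hx; exact hx.1) hV
  exact ⟨N, P₀, h, exists_progression n N P₀⟩

end Pool.Agent.Results.MP_b7926e_nt.SpreadTranslates
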