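import Mathlib
import Pool.Agent.Srf5F.Final

/-!
# Zilber's conjecture for surfaces in the torus of dimension five
-/

set_option autoImplicit false

open Pool.Agent.Srf5 Pool.Agent.Srf5F Pool.Agent.CITLines

namespace Pool.Agent.Results.MP_b7926e_nt.Surfaces

/-- No two multiplicatively independent monomials have absolute value one at infinitely many points
of `C`, and only finitely many points of `C` have given absolute values of the coordinates. -/
def NoArcs (C : Set (Fin 3 → ℂ)) : Prop :=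
  (∀ m n : Fin 3 → ℤ, LinearIndependent ℤ ![m, n] →
    {y | y ∈ C ∧ ‖∏ i, y i ^ m i‖ = 1 ∧ ‖∏ i, y i ^ n i‖ = 1}.Finite) ∧
  ∀ r : Fin 3 → ℝ, {y | y ∈ C ∧ ∀ i, ‖y i‖ = r i}.Finite

/-- Let `V` be an irreducible closed surface in the torus of dimension five, the zero set of
polynomials with algebraic coefficients, in no coset of a proper subtorus (`h0`). Suppose (`hND`)
that for all linearly independent `a, b, c` in `ℤ^5` with `x^a, x^b` and `x^a, x^c` algebraically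
dependent on `V`, either `x^a, x^d` are dependent for some `d` independent of `a, b, c`, or the
Zariski closure `ClV V ![a, b, c]` of the image of `V` under `(x^a, x^b, x^c)` satisfies `NoArcs`.
Then there are finitely many proper torsion cosets of subtori such that every irreducible `X` in
`V ∩ T`, with `T` a torsion coset of a subtorus and `dim X > dim V + dim T - 5`, lies in one of
them. -/
theorem result (S : Set (MvPolynomial (Fin 5) ℂ))
    (hS : ∀ p ∈ S, ∀ m, IsAlgebraic ℚ (p.coeff m)) (V : Set (Fin 5 → ℂ))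
    (hV : V = {x : Fin 5 → ℂ | (∀ i, x i ≠ 0) ∧ ∀ p ∈ S, MvPolynomial.eval x p = 0})
    (hprime : (⨅ x ∈ V, RingHom.ker (MvPolynomial.eval x :
      MvPolynomial (Fin 5) ℂ →+* ℂ)).IsPrime)
    (hdim : ringKrullDim (MvPolynomial (Fin 5) ℂ ⧸
      (⨅ x ∈ V, RingHom.ker (MvPolynomial.eval x : MvPolynomial (Fin 5) ℂ →+* ℂ))) = 2)
    (h0 : ∀ a : Fin 5 → ℤ, a ≠ 0 → ∃ x ∈ V, ∃ y ∈ V, ∏ i, x i ^ a i ≠ ∏ i, y i ^ a i)
    (hND : ∀ a b c : Fin 5 → ℤ, LinearIndependent ℤ ![a, b, c] → AlgDep V a b → AlgDep V a c →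
      (∃ d, LinearIndependent ℤ ![a, b, c, d] ∧ AlgDep V a d) ∨ NoArcs (ClV V ![a, b, c])) :
    ∃ (k : ℕ) (L : Fin k → Submodule ℤ (Fin 5 → ℤ)) (ζ : Fin k → Fin 5 → ℂ),
      (∀ j, L j ≠ ⊥ ∧
        (∀ a : Fin 5 → ℤ, ∀ m : ℤ, m ≠ 0 → m • a ∈ L j → a ∈ L j) ∧
        ∃ m : ℕ, 0 < m ∧ ∀ i, ζ j i ^ m = 1) ∧
      ∀ (M : Submodule ℤ (Fin 5 → ℤ)) (η : Fin 5 → ℂ) (T : Set (Fin 5 → ℂ)),
        (∀ a : Fin 5 → ℤ, ∀ m : ℤ, m ≠ 0 → m • a ∈ M → a ∈ M) →
        (∃ m : ℕ, 0 < m ∧ ∀ i, η i ^ m = 1) →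
        T = {y : Fin 5 → ℂ | (∀ i, y i ≠ 0) ∧
              ∀ a ∈ M, ∏ i, y i ^ a i = ∏ i, η i ^ a i} →
        ∀ X : Set (Fin 5 → ℂ), X ⊆ V → X ⊆ T →
          (⨅ x ∈ X, RingHom.ker (MvPolynomial.eval x :
            MvPolynomial (Fin 5) ℂ →+* ℂ)).IsPrime →
          ringKrullDim (MvPolynomial (Fin 5) ℂ ⧸
              (⨅ x ∈ V, RingHom.ker (MvPolynomial.eval x : MvPolynomial (Fin 5) ℂ →+* ℂ)))
            + ringKrullDim (MvPolynomial (Fin 5) ℂ ⧸
              (⨅ x ∈ T, RingHom.ker (MvPolynomial.eval x : MvPolynomial (Fin 5) ℂ →+* ℂ)))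
            < ringKrullDim (MvPolynomial (Fin 5) ℂ ⧸
              (⨅ x ∈ X, RingHom.ker (MvPolynomial.eval x : MvPolynomial (Fin 5) ℂ →+* ℂ)))
              + ((5 : ℕ) : WithBot ℕ∞) →
          ∃ j, X ⊆ {y : Fin 5 → ℂ | (∀ i, y i ≠ 0) ∧
              ∀ a ∈ L j, ∏ i, y i ^ a i = ∏ i, ζ j i ^ a i} := by
  refine main0 S hS V hV hprime hdim h0 (fun F _ _ _ w hwV hC hQ =>
    points_all S hS V hV hprime ?_ F w hwV hC hQ)
  intro e he h1 h2
  have h3 : e = ![e 0, e 1, e 2] := by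
    funext i
    fin_cases i <;> rfl
  rcases hND (e 0) (e 1) (e 2) (by rwa [← h3]) h1 h2 with h | h
  · exact Or.inl h
  · right
    rw [h3]
    exact ⟨fun m n hmn => h.1 m n hmn, h.2⟩

end Pool.Agent.Results.MP_b7926e_nt.Surfaces
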