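import Pool.Agent.Tri3.Final

set_option autoImplicit false

namespace Pool.Agent.Results.MP_b7926e_nt.Trinomials

open Pool.Agent.CITLines Pool.Agent.CITTrans

/-- Both forms of Zilber's conjecture on intersections with tori (Q1) for every irreducible
component `V` of codimension `3` of the subset of the `n`-torus given by three trinomial equations
`e_i y^(a_i) + d_i y^(b_i) = 1` (integer exponents, coefficients roots of unity): `V` has only
finitely many maximal atypical subvarieties, and the conclusion of the frozen statement `S18257`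
holds for `V`. -/
theorem result (n : ℕ) (a b : Fin 3 → Fin n → ℤ) (e d : Fin 3 → ℂ)
    (he : ∀ i, ∃ m : ℕ, 0 < m ∧ e i ^ m = 1) (hd : ∀ i, ∃ m : ℕ, 0 < m ∧ d i ^ m = 1)
    (V : Set (Fin n → ℂ))
    (hV : IsComponent {y : Fin n → ℂ | (∀ j, y j ≠ 0) ∧
      ∀ i, e i * ∏ j, y j ^ a i j + d i * ∏ j, y j ^ b i j = 1} V)
    (hdim : ringKrullDim (MvPolynomial (Fin n) ℂ ⧸
      (⨅ x ∈ V, RingHom.ker (MvPolynomial.eval x : MvPolynomial (Fin n) ℂ →+* ℂ))) + 3 =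
        (n : WithBot ℕ∞)) :
    {X | IsMaxAtypical V X}.Finite ∧
    ∃ (k : ℕ) (L : Fin k → Submodule ℤ (Fin n → ℤ)) (ζ : Fin k → Fin n → ℂ),
      (∀ j, L j ≠ ⊥ ∧
        (∀ a : Fin n → ℤ, ∀ m : ℤ, m ≠ 0 → m • a ∈ L j → a ∈ L j) ∧
        ∃ m : ℕ, 0 < m ∧ ∀ i, ζ j i ^ m = 1) ∧
      ∀ (M : Submodule ℤ (Fin n → ℤ)) (η : Fin n → ℂ) (T : Set (Fin n → ℂ)),
        (∀ a : Fin n → ℤ, ∀ m : ℤ, m ≠ 0 → m • a ∈ M → a ∈ M) →
        (∃ m : ℕ, 0 < m ∧ ∀ i, η i ^ m = 1) →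
        T = {y : Fin n → ℂ | (∀ i, y i ≠ 0) ∧
              ∀ a ∈ M, ∏ i, y i ^ a i = ∏ i, η i ^ a i} →
        ∀ X : Set (Fin n → ℂ), X ⊆ V → X ⊆ T →
          (⨅ x ∈ X, RingHom.ker (MvPolynomial.eval x : MvPolynomial (Fin n) ℂ →+* ℂ)).IsPrime →
          ringKrullDim (MvPolynomial (Fin n) ℂ ⧸
              (⨅ x ∈ V, RingHom.ker (MvPolynomial.eval x : MvPolynomial (Fin n) ℂ →+* ℂ)))
            + ringKrullDim (MvPolynomial (Fin n) ℂ ⧸
              (⨅ x ∈ T, RingHom.ker (MvPolynomial.eval x : MvPolynomial (Fin n) ℂ →+* ℂ)))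
            < ringKrullDim (MvPolynomial (Fin n) ℂ ⧸
              (⨅ x ∈ X, RingHom.ker (MvPolynomial.eval x : MvPolynomial (Fin n) ℂ →+* ℂ)))
              + (n : WithBot ℕ∞) →
          ∃ j, X ⊆ {y : Fin n → ℂ | (∀ i, y i ≠ 0) ∧
              ∀ a ∈ L j, ∏ i, y i ^ a i = ∏ i, ζ j i ^ a i} :=
  Pool.Agent.Tri3.trinomials he hd hV hdim

end Pool.Agent.Results.MP_b7926e_nt.Trinomials
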